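import Mathlib

/-!
# CUB: `x² + p² y²` and `x² + (p² + 1) y²` (MP_c16a21_nt), local conditions and the descent step
-/

set_option autoImplicit false

namespace Pool.Agent.CUB

theorem two_not_sq {p : ℕ} [Fact p.Prime] (h8 : p % 8 = 3 ∨ p % 8 = 5) :
    ¬ IsSquare (2 : ZMod p) := by
  have hp2 : p ≠ 2 := by
    rintro rfl
    omega
  rw [ZMod.exists_sq_eq_two_iff hp2]
  omega

/-- in a field `a = ε b²` is impossible if `a` times `ε` is no square, unless `b = 0` -/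
theorem sq_of_mul {K : Type*} [Field K] {a b c : K} (h : a * b ^ 2 = c ^ 2) (hb : b ≠ 0) :
    IsSquare a := by
  refine ⟨c / b, ?_⟩
  field_simp
  exact h

theorem case_two {p : ℕ} [Fact p.Prime] (h8 : p % 8 = 3 ∨ p % 8 = 5) {l m n b : ℤ}
    (hl : (p : ℤ) ^ 2 + 1 = 2 * l) (hmn : IsCoprime m n)
    (h : b ^ 2 + ((p : ℤ) ^ 2 + 2) * m ^ 2 * n ^ 2 = 2 * m ^ 4 + l * n ^ 4) : False := by
  have h2 := two_not_sq h8
  have key : (2 : ZMod p) * (b : ZMod p) ^ 2 = (2 * (m : ZMod p) ^ 2 - (n : ZMod p) ^ 2) ^ 2 := by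
    have e : 2 * b ^ 2 = (2 * m ^ 2 - n ^ 2) ^ 2 + (p : ℤ) * ((p : ℤ) * n ^ 2 * (n ^ 2 - 2 * m ^ 2)) := by
      linear_combination 2 * h - n ^ 4 * hl
    have e2 := congrArg (Int.cast : ℤ → ZMod p) e
    push_cast at e2
    rw [CharP.cast_eq_zero, zero_mul, add_zero] at e2
    exact e2
  by_cases hb : (b : ZMod p) = 0
  · rw [hb] at key
    have h3 : (2 * (m : ZMod p) ^ 2 - (n : ZMod p) ^ 2) = 0 := by
      have : (2 * (m : ZMod p) ^ 2 - (n : ZMod p) ^ 2) ^ 2 = 0 := by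
        rw [← key]
        ring
      exact pow_eq_zero_iff (two_ne_zero) |>.mp this
    by_cases hm : (m : ZMod p) = 0
    · have hn : (n : ZMod p) = 0 := by
        rw [hm] at h3
        have : (n : ZMod p) ^ 2 = 0 := by linear_combination -h3
        exact pow_eq_zero_iff (two_ne_zero) |>.mp this
      have d1 := (ZMod.intCast_zmod_eq_zero_iff_dvd m p).mp hm
      have d2 := (ZMod.intCast_zmod_eq_zero_iff_dvd n p).mp hn
      have d3 := hmn.isUnit_of_dvd' d1 d2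
      exact (Nat.prime_iff_prime_int.mp (Fact.out : p.Prime)).not_isUnit d3
    · exact h2 (sq_of_mul (a := (2 : ZMod p)) (b := (m : ZMod p)) (c := (n : ZMod p))
        (by linear_combination h3) hm)
  · exact h2 (sq_of_mul key hb)

theorem l_mod {p l : ℕ} (h8 : p % 8 = 3 ∨ p % 8 = 5) (hl : p ^ 2 + 1 = 2 * l) : l % 4 = 1 := by
  rcases h8 with h8 | h8
  · obtain ⟨k, hk⟩ : ∃ k, p = 8 * k + 3 := ⟨p / 8, by omega⟩
    have : 2 * l = 64 * (k * k) + 48 * k + 10 := by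
      rw [← hl, hk]
      ring
    omega
  · obtain ⟨k, hk⟩ : ∃ k, p = 8 * k + 5 := ⟨p / 8, by omega⟩
    have : 2 * l = 64 * (k * k) + 80 * k + 26 := by
      rw [← hl, hk]
      ring
    omega

theorem p_not_sq {p l : ℕ} [Fact p.Prime] [Fact l.Prime] (h8 : p % 8 = 3 ∨ p % 8 = 5)
    (hl : p ^ 2 + 1 = 2 * l) : ¬ IsSquare (p : ZMod l) := by
  have hp2 : p ≠ 2 := by
    rintro rfl
    omega
  rw [ZMod.exists_sq_eq_prime_iff_of_mod_four_eq_one (l_mod h8 hl) hp2]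
  rintro ⟨r, hr⟩
  have e : (2 : ZMod p) * (l : ZMod p) = 1 := by
    have e2 := congrArg (Nat.cast : ℕ → ZMod p) hl
    push_cast at e2
    rw [CharP.cast_eq_zero] at e2
    rw [← e2]
    ring
  rw [hr] at e
  have hr0 : r ≠ 0 := by
    rintro rfl
    simp at e
  exact two_not_sq h8 (sq_of_mul (b := r) (c := 1) (by linear_combination e) hr0)

theorem neg_one_sq {p l : ℕ} [Fact l.Prime] (h8 : p % 8 = 3 ∨ p % 8 = 5)
    (hl : p ^ 2 + 1 = 2 * l) : IsSquare (-1 : ZMod l) := by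
  rw [ZMod.exists_sq_eq_neg_one_iff]
  have := l_mod h8 hl
  omega

theorem case_p {p l : ℕ} [Fact p.Prime] [Fact l.Prime] (h8 : p % 8 = 3 ∨ p % 8 = 5)
    (hl : p ^ 2 + 1 = 2 * l) {m n s e : ℤ} (he : e = 1 ∨ e = -1) (hmn : IsCoprime m n)
    (h : m ^ 2 = ((p : ℤ) ^ 2 + 1) * n ^ 2 + e * p * s ^ 2) : False := by
  have hlZ : (p : ℤ) ^ 2 + 1 = 2 * l := by exact_mod_cast hl
  have hlp : Prime (l : ℤ) := Nat.prime_iff_prime_int.mp Fact.out
  have key : (m : ZMod l) ^ 2 = e * p * (s : ZMod l) ^ 2 := by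
    have e1 : m ^ 2 = (l : ℤ) * (2 * n ^ 2) + e * p * s ^ 2 := by
      linear_combination h + n ^ 2 * hlZ
    have e2 := congrArg (Int.cast : ℤ → ZMod l) e1
    push_cast at e2
    rw [CharP.cast_eq_zero, zero_mul, zero_add] at e2
    exact e2
  by_cases hs : (s : ZMod l) = 0
  · have hm : (m : ZMod l) = 0 := by
      rw [hs] at key
      have : (m : ZMod l) ^ 2 = 0 := by
        rw [key]
        ring
      exact pow_eq_zero_iff (two_ne_zero) |>.mp this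
    obtain ⟨m', hm'⟩ := (ZMod.intCast_zmod_eq_zero_iff_dvd m l).mp hm
    obtain ⟨s', hs'⟩ := (ZMod.intCast_zmod_eq_zero_iff_dvd s l).mp hs
    have h3 : 2 * n ^ 2 = (l : ℤ) * (m' ^ 2 - e * p * s' ^ 2) := by
      have h4 : (l : ℤ) * (2 * n ^ 2) = (l : ℤ) * ((l : ℤ) * (m' ^ 2 - e * p * s' ^ 2)) := by
        rw [hm', hs'] at h
        linear_combination -h - n ^ 2 * hlZ
      exact mul_left_cancel₀ hlp.ne_zero h4
    have h5 : (l : ℤ) ∣ 2 * n ^ 2 := ⟨_, h3⟩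
    have h6 : ¬ (l : ℤ) ∣ 2 := by
      intro h7
      have h8' : l ∣ 2 := by exact_mod_cast h7
      have := Nat.le_of_dvd (by norm_num) h8'
      have := (Fact.out : l.Prime).two_le
      have := l_mod h8 hl
      omega
    have h7 : (l : ℤ) ∣ n := hlp.dvd_of_dvd_pow ((hlp.dvd_or_dvd h5).resolve_left h6)
    exact hlp.not_isUnit (hmn.isUnit_of_dvd' ⟨m', hm'⟩ h7)
  · obtain ⟨i, hi⟩ := neg_one_sq h8 hl
    apply p_not_sq h8 hl
    rcases he with rfl | rfl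
    · refine sq_of_mul (b := (s : ZMod l)) (c := (m : ZMod l)) ?_ hs
      rw [key]
      push_cast
      ring
    · refine sq_of_mul (b := (s : ZMod l)) (c := i * (m : ZMod l)) ?_ hs
      rw [mul_pow, key]
      push_cast
      linear_combination -(p : ZMod l) * (s : ZMod l) ^ 2 * hi

/-- signs -/
theorem split_sq {A B c : ℤ} (h : A * B = c ^ 2) (hc : c ≠ 0) (hAB : IsCoprime A B) :
    ∃ r s : ℤ, r ≠ 0 ∧ s ≠ 0 ∧ c ^ 2 = r ^ 2 * s ^ 2 ∧
      ((A = r ^ 2 ∧ B = s ^ 2) ∨ (A = -r ^ 2 ∧ B = -s ^ 2)) := by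
  obtain ⟨r, hr⟩ := Int.sq_of_isCoprime hAB h
  obtain ⟨s, hs⟩ := Int.sq_of_isCoprime hAB.symm (by rw [mul_comm]; exact h)
  have hc2 : 0 < c ^ 2 := by positivity
  have hA0 : A ≠ 0 := by
    rintro rfl
    rw [zero_mul] at h
    omega
  have hB0 : B ≠ 0 := by
    rintro rfl
    rw [mul_zero] at h
    omega
  have hr0 : r ≠ 0 := by
    rintro rfl
    rcases hr with hr | hr <;> simp at hr <;> exact hA0 hr
  have hs0 : s ≠ 0 := by
    rintro rfl
    rcases hs with hs | hs <;> simp at hs <;> exact hB0 hs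
  have hr2 : 0 < r ^ 2 := by positivity
  have hs2 : 0 < s ^ 2 := by positivity
  have hrs := mul_pos hr2 hs2
  rcases hr with hr | hr <;> rcases hs with hs | hs
  · exact ⟨r, s, hr0, hs0, by rw [← h, hr, hs], Or.inl ⟨hr, hs⟩⟩
  · exfalso
    rw [hr, hs] at h
    nlinarith
  · exfalso
    rw [hr, hs] at h
    nlinarith
  · exact ⟨r, s, hr0, hs0, by rw [← h, hr, hs]; ring, Or.inr ⟨hr, hs⟩⟩

/-- a solution of the two equations -/
def IsSol (P x y u v : ℤ) : Prop :=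
  x ≠ 0 ∧ y ≠ 0 ∧ x ^ 2 + P ^ 2 * y ^ 2 = u ^ 2 ∧ u ^ 2 + y ^ 2 = v ^ 2

theorem one_le_sq {a : ℤ} (h : a ≠ 0) : 1 ≤ a ^ 2 := by
  have : 0 < a ^ 2 := by positivity
  omega

theorem step_one {P m n b : ℤ} (hP : Prime P) (hmn : IsCoprime m n) (hm : m ≠ 0) (hn : n ≠ 0)
    (hb : b ≠ 0) (hPb : ¬ P ∣ b)
    (h : (m ^ 2 - n ^ 2) * (m ^ 2 - (P ^ 2 + 1) * n ^ 2) = b ^ 2) :
    ∃ x y u v : ℤ, IsSol P x y u v ∧ (y ^ 2 ≤ n ^ 2 ∨ y ^ 2 ≤ b ^ 2) := by
  have hcop : IsCoprime (m ^ 2 - n ^ 2) (m ^ 2 - (P ^ 2 + 1) * n ^ 2) := by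
    refine isCoprime_of_prime_dvd ?_ ?_
    · rintro ⟨h1, h2⟩
      rw [h1, zero_mul] at h
      exact hb (pow_eq_zero_iff two_ne_zero |>.mp h.symm)
    · intro q hq h1 h2
      have h3 : q ∣ P ^ 2 * n ^ 2 := by
        have := dvd_sub h1 h2
        have e : m ^ 2 - n ^ 2 - (m ^ 2 - (P ^ 2 + 1) * n ^ 2) = P ^ 2 * n ^ 2 := by ring
        rwa [e] at this
      have h4 : q ∣ P ^ 2 * m ^ 2 := by
        have := dvd_sub (dvd_mul_of_dvd_right h1 (P ^ 2 + 1)) h2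
        have e : (P ^ 2 + 1) * (m ^ 2 - n ^ 2) - (m ^ 2 - (P ^ 2 + 1) * n ^ 2) =
            P ^ 2 * m ^ 2 := by ring
        rwa [e] at this
      have h5 : ¬ q ∣ P ^ 2 := by
        intro h6
        have h7 : q ∣ P := hq.dvd_of_dvd_pow h6
        have h8 : P ∣ q := (hq.associated_of_dvd hP h7).symm.dvd
        have h9 : P ∣ b ^ 2 := by
          rw [← h]
          exact dvd_mul_of_dvd_left (h8.trans h1) _
        exact hPb (hP.dvd_of_dvd_pow h9)
      have h6 : q ∣ n := hq.dvd_of_dvd_pow ((hq.dvd_or_dvd h3).resolve_left h5)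
      have h7 : q ∣ m := hq.dvd_of_dvd_pow ((hq.dvd_or_dvd h4).resolve_left h5)
      exact hq.not_isUnit (hmn.isUnit_of_dvd' h7 h6)
  obtain ⟨r, s, hr, hs, hrs, ⟨h1, h2⟩ | ⟨h1, h2⟩⟩ := split_sq h hb hcop
  · refine ⟨s, n, r, m, ⟨hs, hn, ?_, ?_⟩, Or.inl le_rfl⟩
    · linear_combination h1 - h2
    · linear_combination -h1
  · refine ⟨P * m, r, P * n, s, ⟨mul_ne_zero hP.ne_zero hm, hr, ?_, ?_⟩, Or.inr ?_⟩
    · linear_combination P ^ 2 * h1
    · linear_combination h1 - h2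
    · rw [hrs]
      have h3 := one_le_sq hs
      have h4 := sq_nonneg r
      nlinarith

theorem step_two {p l : ℕ} [Fact p.Prime] [Fact l.Prime] (h8 : p % 8 = 3 ∨ p % 8 = 5)
    (hl : p ^ 2 + 1 = 2 * l) {m n c : ℤ} (hmn : IsCoprime m n) (hm : m ≠ 0) (hn : n ≠ 0)
    (hc : c ≠ 0) (hPn : ¬ (p : ℤ) ∣ n)
    (h : (m ^ 2 - n ^ 2) * (m ^ 2 - ((p : ℤ) ^ 2 + 1) * n ^ 2) = (p * c) ^ 2) :
    ∃ x y u v : ℤ, IsSol p x y u v ∧ (y ^ 2 ≤ n ^ 2 ∨ y ^ 2 ≤ c ^ 2) := by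
  have hP : Prime (p : ℤ) := Nat.prime_iff_prime_int.mp Fact.out
  obtain ⟨P, hPP⟩ : ∃ P : ℤ, P = p := ⟨_, rfl⟩
  rw [← hPP] at hP hPn h ⊢
  have hP0 : P ≠ 0 := hP.ne_zero
  have h1 : P ∣ m ^ 2 - n ^ 2 := by
    have h2 : P ∣ (m ^ 2 - n ^ 2) * (m ^ 2 - (P ^ 2 + 1) * n ^ 2) := by
      rw [h]
      exact Dvd.intro _ (by ring : P * (P * c ^ 2) = (P * c) ^ 2)
    rcases hP.dvd_or_dvd h2 with h3 | h3
    · exact h3
    · have e : m ^ 2 - n ^ 2 = (m ^ 2 - (P ^ 2 + 1) * n ^ 2) + P * (P * n ^ 2) := by ring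
      rw [e]
      exact dvd_add h3 (Dvd.intro _ rfl)
  obtain ⟨A, hA⟩ := h1
  obtain ⟨B, hB⟩ : ∃ B, B = A - P * n ^ 2 := ⟨_, rfl⟩
  have hB2 : m ^ 2 - (P ^ 2 + 1) * n ^ 2 = P * B := by
    rw [hB]
    linear_combination hA
  have hAB : A * B = c ^ 2 := by
    rw [hA, hB2] at h
    have h3 : P ^ 2 * (A * B) = P ^ 2 * c ^ 2 := by linear_combination h
    exact mul_left_cancel₀ (pow_ne_zero 2 hP0) h3
  have hqn : ∀ q : ℤ, Prime q → q ∣ n → ¬ q ∣ m := by
    intro q hq h2 h3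
    exact hq.not_isUnit (hmn.isUnit_of_dvd' h3 h2)
  by_cases hPA : P ∣ A
  · -- both divisible
    obtain ⟨A', hA'⟩ := hPA
    obtain ⟨B', hB'⟩ : ∃ B', B' = A' - n ^ 2 := ⟨_, rfl⟩
    have hB3 : B = P * B' := by
      rw [hB, hB', hA']
      ring
    have hPc : P ∣ c := by
      apply hP.dvd_of_dvd_pow (n := 2)
      rw [← hAB, hA']
      exact ⟨A' * B, by ring⟩
    obtain ⟨d, hd⟩ := hPc
    have hd0 : d ≠ 0 := by
      rintro rfl
      rw [mul_zero] at hd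
      exact hc hd
    have hAB' : A' * B' = d ^ 2 := by
      rw [hA', hB3, hd] at hAB
      have h3 : P ^ 2 * (A' * B') = P ^ 2 * d ^ 2 := by linear_combination hAB
      exact mul_left_cancel₀ (pow_ne_zero 2 hP0) h3
    have hm2 : m ^ 2 = n ^ 2 + P ^ 2 * A' := by
      rw [hA'] at hA
      linear_combination hA
    have hcop : IsCoprime A' B' := by
      refine isCoprime_of_prime_dvd ?_ ?_
      · rintro ⟨h2, h3⟩
        rw [h2, zero_mul] at hAB'
        exact hd0 (pow_eq_zero_iff two_ne_zero |>.mp hAB'.symm)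
      · intro q hq h2 h3
        have h4 : q ∣ n ^ 2 := by
          have := dvd_sub h2 h3
          have e : A' - B' = n ^ 2 := by
            rw [hB']
            ring
          rwa [e] at this
        have h5 : q ∣ n := hq.dvd_of_dvd_pow h4
        refine hqn q hq h5 (hq.dvd_of_dvd_pow (n := 2) ?_)
        rw [hm2]
        exact dvd_add h4 (dvd_mul_of_dvd_right h2 _)
    obtain ⟨r, s, hr, hs, hrs, ⟨h2, h3⟩ | ⟨h2, h3⟩⟩ := split_sq hAB' hd0 hcop
    · refine ⟨P * s, n, P * r, m, ⟨mul_ne_zero hP0 hs, hn, ?_, ?_⟩, Or.inl le_rfl⟩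
      · linear_combination P ^ 2 * (h2 - h3) + P ^ 2 * hB'
      · rw [hm2, h2]
        ring
    · refine ⟨m, r, n, s, ⟨hm, hr, ?_, ?_⟩, Or.inr ?_⟩
      · rw [hm2, h2]
        ring
      · linear_combination hB' + h2 - h3
      · have h4 : c ^ 2 = P ^ 2 * (r ^ 2 * s ^ 2) := by
          rw [hd, ← hrs]
          ring
        rw [h4]
        have h5 := one_le_sq hs
        have h6 := sq_nonneg r
        have h7 := one_le_sq hP0
        have h8 : r ^ 2 ≤ r ^ 2 * s ^ 2 := by nlinarith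
        have h9 : r ^ 2 * s ^ 2 ≤ P ^ 2 * (r ^ 2 * s ^ 2) := by
          have : 0 ≤ r ^ 2 * s ^ 2 := by positivity
          nlinarith
        linarith
  · exfalso
    have hcop : IsCoprime A B := by
      refine isCoprime_of_prime_dvd ?_ ?_
      · rintro ⟨h2, h3⟩
        rw [h2, zero_mul] at hAB
        exact hc (pow_eq_zero_iff two_ne_zero |>.mp hAB.symm)
      · intro q hq h2 h3
        have h4 : q ∣ P * n ^ 2 := by
          have := dvd_sub h2 h3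
          have e : A - B = P * n ^ 2 := by
            rw [hB]
            ring
          rwa [e] at this
        rcases hq.dvd_or_dvd h4 with h5 | h5
        · exact hPA (((hq.associated_of_dvd hP h5).symm.dvd).trans h2)
        · have h6 : q ∣ n := hq.dvd_of_dvd_pow h5
          refine hqn q hq h6 (hq.dvd_of_dvd_pow (n := 2) ?_)
          have e : m ^ 2 = n ^ 2 + P * A := by linear_combination hA
          rw [e]
          exact dvd_add h5 (dvd_mul_of_dvd_right h2 _)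
    obtain ⟨r, s, hr, hs, hrs, ⟨h2, h3⟩ | ⟨h2, h3⟩⟩ := split_sq hAB hc hcop
    · refine case_p h8 hl (m := m) (n := n) (s := s) (e := 1) (Or.inl rfl) hmn ?_
      rw [← hPP]
      linear_combination hB2 + P * h3
    · refine case_p h8 hl (m := m) (n := n) (s := s) (e := -1) (Or.inr rfl) hmn ?_
      rw [← hPP]
      linear_combination hB2 + P * h3

end Pool.Agent.CUB
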