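import Pool.Agent.CUB.A

/-!
# CUB: the factorization and the descent
-/

set_option autoImplicit false

namespace Pool.Agent.CUB

theorem fourth {F G A : ℕ} (hFG : Nat.Coprime F G) (h : F * G = A ^ 4) :
    ∃ m n : ℕ, Nat.Coprime m n ∧ m * n = A ∧ F = m ^ 4 ∧ G = n ^ 4 := by
  have h1 : IsUnit (gcd F G) := by
    rw [Nat.isUnit_iff]
    exact hFG
  have h2 : IsUnit (gcd G F) := by
    rw [Nat.isUnit_iff]
    exact hFG.symm
  obtain ⟨m, hm⟩ := exists_eq_pow_of_mul_eq_pow h1 h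
  obtain ⟨n, hn⟩ := exists_eq_pow_of_mul_eq_pow h2 (by rw [mul_comm]; exact h)
  refine ⟨m, n, ?_, ?_, hm, hn⟩
  · rw [hm, hn] at hFG
    exact (Nat.coprime_pow_left_iff (by norm_num) _ _).mp
      ((Nat.coprime_pow_right_iff (by norm_num) _ _).mp hFG)
  · rw [hm, hn, ← mul_pow] at h
    exact Nat.pow_left_injective (n := 4) (by norm_num) h

theorem split4_aux {F G A l : ℕ} (hl : l.Prime) (hl2 : l ≠ 2) (hFG : Nat.Coprime F G)
    (h : F * G = 2 * l * A ^ 4) (h2 : 2 ∣ G) :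
    ∃ m n : ℕ, Nat.Coprime m n ∧ m * n = A ∧
      (F + G = m ^ 4 + 2 * l * n ^ 4 ∨ F + G = 2 * m ^ 4 + l * n ^ 4) := by
  have hl0 : 0 < l := hl.pos
  have hlFG : l ∣ F * G := by
    rw [h]
    exact ⟨2 * A ^ 4, by ring⟩
  obtain ⟨G', hG'⟩ := h2
  rcases (hl.dvd_mul).mp hlFG with h3 | h3
  · obtain ⟨F', hF'⟩ := h3
    have h4 : F' * G' = A ^ 4 := by
      rw [hF', hG'] at h
      have : (2 * l) * (F' * G') = (2 * l) * A ^ 4 := by
        rw [← h]
        ring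
      exact Nat.eq_of_mul_eq_mul_left (by positivity) this
    have h5 : Nat.Coprime F' G' := by
      rw [hF', hG'] at hFG
      exact (Nat.Coprime.coprime_mul_left hFG).coprime_mul_left_right
    obtain ⟨m, n, c1, c2, c3, c4⟩ := fourth h5 h4
    refine ⟨n, m, c1.symm, by rw [mul_comm]; exact c2, Or.inr ?_⟩
    rw [hF', hG', c3, c4]
    ring
  · have h6 : l ∣ G' := by
      rw [hG'] at h3
      rcases (hl.dvd_mul).mp h3 with h7 | h7
      · have := (Nat.prime_dvd_prime_iff_eq hl Nat.prime_two).mp h7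
        exact absurd this hl2
      · exact h7
    obtain ⟨G'', hG''⟩ := h6
    have h4 : F * G'' = A ^ 4 := by
      rw [hG', hG''] at h
      have : (2 * l) * (F * G'') = (2 * l) * A ^ 4 := by
        rw [← h]
        ring
      exact Nat.eq_of_mul_eq_mul_left (by positivity) this
    have h5 : Nat.Coprime F G'' := by
      rw [hG', hG''] at hFG
      exact (hFG.coprime_mul_left_right).coprime_mul_left_right
    obtain ⟨m, n, c1, c2, c3, c4⟩ := fourth h5 h4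
    refine ⟨m, n, c1, c2, Or.inl ?_⟩
    rw [hG', hG'', c3, c4]
    ring

theorem split4 {F G A l : ℕ} (hl : l.Prime) (hl2 : l ≠ 2) (hFG : Nat.Coprime F G)
    (h : F * G = 2 * l * A ^ 4) :
    ∃ m n : ℕ, Nat.Coprime m n ∧ m * n = A ∧
      (F + G = m ^ 4 + 2 * l * n ^ 4 ∨ F + G = 2 * m ^ 4 + l * n ^ 4) := by
  have h2 : 2 ∣ F * G := by
    rw [h]
    exact ⟨l * A ^ 4, by ring⟩
  rcases (Nat.prime_two.dvd_mul).mp h2 with h3 | h3
  · obtain ⟨m, n, c1, c2, c3⟩ := split4_aux hl hl2 hFG.symm (by rw [mul_comm]; exact h) h3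
    refine ⟨m, n, c1, c2, ?_⟩
    rw [add_comm F G]
    exact c3
  · exact split4_aux hl hl2 hFG h h3

/-- the factorization of `W² - V²` -/
theorem factor {p l : ℕ} (hlp : l.Prime) (hl2 : l ≠ 2) (hl : p ^ 2 + 1 = 2 * l) {a b V : ℤ}
    (ha : a ≠ 0) (hab : IsCoprime a b)
    (hV : V ^ 2 = ((p : ℤ) ^ 2 * a ^ 2 + b ^ 2) ^ 2 + 4 * a ^ 2 * b ^ 2) :
    ∃ m n : ℕ, Nat.Coprime m n ∧ m * n = a.natAbs ∧
      (b ^ 2 + ((p : ℤ) ^ 2 + 2) * m ^ 2 * n ^ 2 = m ^ 4 + 2 * l * n ^ 4 ∨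
        b ^ 2 + ((p : ℤ) ^ 2 + 2) * m ^ 2 * n ^ 2 = 2 * m ^ 4 + l * n ^ 4) := by
  have hlZ : (p : ℤ) ^ 2 + 1 = 2 * l := by exact_mod_cast hl
  obtain ⟨W, hW⟩ : ∃ W : ℤ, W = b ^ 2 + ((p : ℤ) ^ 2 + 2) * a ^ 2 := ⟨_, rfl⟩
  have hWV : (W - V) * (W + V) = 4 * (2 * l * a ^ 4) := by
    rw [← hlZ, hW]
    linear_combination -hV
  obtain ⟨F, hF⟩ : ∃ F, W - V = 2 * F := by
    rcases Int.even_or_odd' (W - V) with ⟨F, h | h⟩
    · exact ⟨F, h⟩
    · exfalso
      have e : W + V = 2 * F + 1 + 2 * V := by linear_combination h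
      rw [h, e] at hWV
      have e2 : (2 * F + 1) * (2 * F + 1 + 2 * V) =
        2 * (2 * F ^ 2 + 2 * F + 2 * F * V + V) + 1 := by ring
      omega
  obtain ⟨G, hG⟩ : ∃ G, G = F + V := ⟨_, rfl⟩
  have hG2 : W + V = 2 * G := by
    rw [hG]
    linear_combination hF
  have hFG : F * G = 2 * l * a ^ 4 := by
    rw [hF, hG2] at hWV
    linarith
  have hFGW : F + G = W := by linarith
  have hl0 : (0 : ℤ) < l := by exact_mod_cast hlp.pos
  have ha4 : 0 < a ^ 4 := by positivity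
  have hpos : 0 < F * G := by
    rw [hFG]
    positivity
  have hWpos : 0 < W := by
    rw [hW]
    have h1 : 0 ≤ b ^ 2 := sq_nonneg b
    have h2 : 0 < ((p : ℤ) ^ 2 + 2) * a ^ 2 := by positivity
    linarith
  have hFp : 0 < F ∧ 0 < G := by
    rcases pos_and_pos_or_neg_and_neg_of_mul_pos hpos with h | h
    · exact h
    · exfalso
      linarith [h.1, h.2]
  obtain ⟨f, hf⟩ := Int.eq_ofNat_of_zero_le hFp.1.le
  obtain ⟨g, hg⟩ := Int.eq_ofNat_of_zero_le hFp.2.le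
  have hfg : f * g = 2 * l * a.natAbs ^ 4 := by
    have h1 : ((f * g : ℕ) : ℤ) = ((2 * l * a.natAbs ^ 4 : ℕ) : ℤ) := by
      push_cast
      rw [← hf, ← hg, hFG]
      congr 1
      rw [show (4 : ℕ) = 2 * 2 by norm_num, pow_mul, pow_mul, sq_abs]
    exact_mod_cast h1
  have hsf : Squarefree (2 * l) := by
    rw [Nat.squarefree_mul_iff]
    refine ⟨(Nat.coprime_primes Nat.prime_two hlp).mpr (Ne.symm hl2), ?_, ?_⟩
    · exact Nat.prime_two.prime.irreducible.squarefree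
    · exact hlp.prime.irreducible.squarefree
  have hcop : Nat.Coprime f g := by
    rw [Nat.coprime_iff_gcd_eq_one]
    by_contra hne
    obtain ⟨q, hq, hqd⟩ := Nat.exists_prime_and_dvd hne
    have hqf : q ∣ f := hqd.trans (Nat.gcd_dvd_left f g)
    have hqg : q ∣ g := hqd.trans (Nat.gcd_dvd_right f g)
    have hqq : q * q ∣ 2 * l * a.natAbs ^ 4 := by
      rw [← hfg]
      exact mul_dvd_mul hqf hqg
    by_cases hqa : q ∣ a.natAbs
    · have h1 : (q : ℤ) ∣ a := Int.natCast_dvd.mpr hqa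
      have h2 : (q : ℤ) ∣ W := by
        rw [← hFGW, hf, hg]
        exact dvd_add (by exact_mod_cast hqf) (by exact_mod_cast hqg)
      have h3 : (q : ℤ) ∣ b ^ 2 := by
        have e : b ^ 2 = W - a * (((p : ℤ) ^ 2 + 2) * a) := by
          rw [hW]
          ring
        rw [e]
        exact dvd_sub h2 (dvd_mul_of_dvd_left h1 _)
      have hqZ : Prime (q : ℤ) := Nat.prime_iff_prime_int.mp hq
      exact hqZ.not_isUnit (hab.isUnit_of_dvd' h1 (hqZ.dvd_of_dvd_pow h3))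
    · have h1 : Nat.Coprime (q * q) (a.natAbs ^ 4) := by
        have h2 : Nat.Coprime q a.natAbs := (Nat.Prime.coprime_iff_not_dvd hq).mpr hqa
        exact Nat.Coprime.pow_right 4 (Nat.Coprime.mul_left h2 h2)
      have h3 : q * q ∣ 2 * l := h1.dvd_of_dvd_mul_right hqq
      have := hsf q h3
      rw [Nat.isUnit_iff] at this
      exact hq.one_lt.ne' this
  obtain ⟨m, n, c1, c2, c3⟩ := split4 hlp hl2 hcop hfg
  have hmn : (m : ℤ) ^ 2 * (n : ℤ) ^ 2 = a ^ 2 := by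
    have h1 : ((m * n : ℕ) : ℤ) = |a| := by
      rw [c2]
      exact Int.natCast_natAbs a
    push_cast at h1
    rw [← mul_pow, h1, sq_abs]
  have hsum : b ^ 2 + ((p : ℤ) ^ 2 + 2) * m ^ 2 * n ^ 2 = ((f + g : ℕ) : ℤ) := by
    push_cast
    rw [← hf, ← hg, hFGW, hW, mul_assoc, hmn]
  refine ⟨m, n, c1, c2, ?_⟩
  rcases c3 with c3 | c3
  · left
    rw [hsum, c3]
    push_cast
    ring
  · right
    rw [hsum, c3]
    push_cast
    ring

end Pool.Agent.CUB
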