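import Pool.Agent.CUB.B

/-!
# CUB: `x² + p² y²` and `x² + (p² + 1) y²` are never both squares
-/

set_option autoImplicit false

namespace Pool.Agent.CUB

/-- the step of the descent, from the quartic: `c = b` (first case), `b = p c` (second case) -/
theorem step {p l : ℕ} [Fact p.Prime] [Fact l.Prime] (h8 : p % 8 = 3 ∨ p % 8 = 5)
    (hl : p ^ 2 + 1 = 2 * l) {a b V c : ℤ} (ha : a ≠ 0) (hb : b ≠ 0) (hab : IsCoprime a b)
    (hV : V ^ 2 = ((p : ℤ) ^ 2 * a ^ 2 + b ^ 2) ^ 2 + 4 * a ^ 2 * b ^ 2)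
    (hc : (c = b ∧ ¬ (p : ℤ) ∣ b) ∨ b = p * c) :
    ∃ x y u v : ℤ, IsSol p x y u v ∧ (y ^ 2 ≤ a ^ 2 ∨ y ^ 2 ≤ c ^ 2) := by
  have hP : Prime (p : ℤ) := Nat.prime_iff_prime_int.mp Fact.out
  have hlZ : (p : ℤ) ^ 2 + 1 = 2 * l := by exact_mod_cast hl
  have hl2 : l ≠ 2 := by
    have := l_mod h8 hl
    rintro rfl
    omega
  obtain ⟨m, n, hmn, hmna, h⟩ := factor Fact.out hl2 hl ha hab hV
  have hmnZ : IsCoprime (m : ℤ) (n : ℤ) := Nat.isCoprime_iff_coprime.mpr hmn
  have ha0 : a.natAbs ≠ 0 := Int.natAbs_ne_zero.mpr ha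
  have hm0 : m ≠ 0 := by
    rintro rfl
    rw [zero_mul] at hmna
    exact ha0 hmna.symm
  have hn0 : n ≠ 0 := by
    rintro rfl
    rw [mul_zero] at hmna
    exact ha0 hmna.symm
  have hmZ : (m : ℤ) ≠ 0 := by exact_mod_cast hm0
  have hnZ : (n : ℤ) ≠ 0 := by exact_mod_cast hn0
  have ha2 : (m : ℤ) ^ 2 * (n : ℤ) ^ 2 = a ^ 2 := by
    have h1 : ((m * n : ℕ) : ℤ) = |a| := by
      rw [hmna]
      exact Int.natCast_natAbs a
    push_cast at h1
    rw [← mul_pow, h1, sq_abs]
  have hna : (n : ℤ) ^ 2 ≤ a ^ 2 := by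
    rw [← ha2]
    have h1 := one_le_sq hmZ
    have h2 := sq_nonneg (n : ℤ)
    nlinarith
  rcases h with h | h
  · have h1 : ((m : ℤ) ^ 2 - (n : ℤ) ^ 2) * ((m : ℤ) ^ 2 - ((p : ℤ) ^ 2 + 1) * (n : ℤ) ^ 2) =
        b ^ 2 := by
      linear_combination -h + (n : ℤ) ^ 4 * hlZ
    rcases hc with ⟨rfl, hpb⟩ | hc
    · obtain ⟨x, y, u, v, hs, h2 | h2⟩ := step_one hP hmnZ hmZ hnZ hb hpb h1
      · exact ⟨x, y, u, v, hs, Or.inl (h2.trans hna)⟩
      · exact ⟨x, y, u, v, hs, Or.inr h2⟩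
    · have hpa : ¬ (p : ℤ) ∣ a := by
        intro h2
        exact hP.not_isUnit (hab.isUnit_of_dvd' h2 ⟨c, hc⟩)
      have hpn : ¬ (p : ℤ) ∣ n := by
        intro h2
        apply hpa
        apply hP.dvd_of_dvd_pow (n := 2)
        rw [← ha2]
        exact dvd_mul_of_dvd_right (dvd_pow h2 two_ne_zero) _
      have hc0 : c ≠ 0 := by
        rintro rfl
        rw [mul_zero] at hc
        exact hb hc
      obtain ⟨x, y, u, v, hs, h2 | h2⟩ := step_two h8 hl hmnZ hmZ hnZ hc0 hpn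
        (by rw [h1, hc])
      · exact ⟨x, y, u, v, hs, Or.inl (h2.trans hna)⟩
      · exact ⟨x, y, u, v, hs, Or.inr h2⟩
  · exact absurd h fun h2 => case_two h8 hlZ hmnZ h2

theorem no_sol_aux {p l : ℕ} [Fact p.Prime] [Fact l.Prime] (h8 : p % 8 = 3 ∨ p % 8 = 5)
    (hl : p ^ 2 + 1 = 2 * l) : ∀ N : ℕ, ∀ x y u v : ℤ, y.natAbs = N → IsSol p x y u v → False := by
  intro N
  induction N using Nat.strong_induction_on with
  | _ N ih =>
    intro x y u v hN hs
    have IH : ∀ x' y' u' v' : ℤ, IsSol p x' y' u' v' → ¬ y' ^ 2 < y ^ 2 := by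
      intro x' y' u' v' h1 h2
      have h3 : y'.natAbs < y.natAbs := Int.natAbs_lt_iff_sq_lt.mpr h2
      exact ih y'.natAbs (by omega) x' y' u' v' rfl h1
    obtain ⟨hx, hy, e1, e2⟩ := hs
    have hP : Prime (p : ℤ) := Nat.prime_iff_prime_int.mp Fact.out
    have hp0 : (p : ℤ) ≠ 0 := hP.ne_zero
    have hy2 := one_le_sq hy
    -- coprime
    have hxy : IsCoprime x y := by
      refine isCoprime_of_prime_dvd (fun h => hx h.1) ?_
      rintro q hq ⟨x', hx'⟩ ⟨y', hy'⟩
      have hu : q ∣ u := by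
        apply hq.dvd_of_dvd_pow (n := 2)
        rw [← e1, hx', hy']
        exact ⟨q * x' ^ 2 + (p : ℤ) ^ 2 * (q * y' ^ 2), by ring⟩
      obtain ⟨u', hu'⟩ := hu
      have hv : q ∣ v := by
        apply hq.dvd_of_dvd_pow (n := 2)
        rw [← e2, hu', hy']
        exact ⟨q * u' ^ 2 + q * y' ^ 2, by ring⟩
      obtain ⟨v', hv'⟩ := hv
      have hq0 : q ≠ 0 := hq.ne_zero
      have hy'0 : y' ≠ 0 := by
        rintro rfl
        rw [mul_zero] at hy'
        exact hy hy'
      have hx'0 : x' ≠ 0 := by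
        rintro rfl
        rw [mul_zero] at hx'
        exact hx hx'
      refine IH x' y' u' v' ⟨hx'0, hy'0, ?_, ?_⟩ ?_
      · apply mul_left_cancel₀ (pow_ne_zero 2 hq0)
        rw [hx', hy', hu'] at e1
        linear_combination e1
      · apply mul_left_cancel₀ (pow_ne_zero 2 hq0)
        rw [hy', hu', hv'] at e2
        linear_combination e2
      · have h1 : 1 < q ^ 2 := by
          have h2 : 1 < q.natAbs := (Int.prime_iff_natAbs_prime.mp hq).one_lt
          have h3 : (1 : ℤ).natAbs < q.natAbs := h2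
          have := Int.natAbs_lt_iff_sq_lt.mp h3
          linarith
        have h2 := one_le_sq hy'0
        rw [hy']
        nlinarith
    -- `x` is odd
    have hp2 : ∃ i : ℤ, (p : ℤ) = 2 * i + 1 := ⟨(p : ℤ) / 2, by omega⟩
    obtain ⟨i, hi⟩ := hp2
    have hxodd : x % 2 = 1 := by
      by_contra hcon
      obtain ⟨k, hk⟩ : ∃ k, x = 2 * k := ⟨x / 2, by omega⟩
      obtain ⟨j, hj⟩ : ∃ j, y = 2 * j + 1 := by
        rcases Int.even_or_odd' y with ⟨j, h | h⟩
        · exfalso
          exact Int.prime_two.not_isUnit (hxy.isUnit_of_dvd' ⟨k, hk⟩ ⟨j, h⟩)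
        · exact ⟨j, h⟩
      have h1 : v ^ 2 = 4 * (k ^ 2 + (i ^ 2 + i) * (2 * j + 1) ^ 2 + (j ^ 2 + j) * 2) + 2 := by
        rw [← e2, ← e1, hk, hj, hi]
        ring
      rcases Int.even_or_odd' v with ⟨w, h | h⟩
      · rw [h] at h1
        have h2 : (2 * w) ^ 2 = 4 * (w ^ 2) := by ring
        omega
      · rw [h] at h1
        have h2 : (2 * w + 1) ^ 2 = 4 * (w ^ 2 + w) + 1 := by ring
        omega
    have hu0 : u ≠ 0 := by
      rintro rfl
      have h1 := one_le_sq hx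
      have h2 : 0 ≤ (p : ℤ) ^ 2 * y ^ 2 := by positivity
      have h3 : (0 : ℤ) ^ 2 = 0 := by norm_num
      omega
    have huabs : 0 < |u| := abs_pos.mpr hu0
    by_cases hpx : (p : ℤ) ∣ x
    · -- second case
      obtain ⟨x', hx'⟩ := hpx
      have hpy : ¬ (p : ℤ) ∣ y := fun h => hP.not_isUnit (hxy.isUnit_of_dvd' ⟨x', hx'⟩ h)
      have hpu : (p : ℤ) ∣ |u| := by
        rw [dvd_abs]
        apply hP.dvd_of_dvd_pow (n := 2)
        rw [← e1, hx']
        exact ⟨p * x' ^ 2 + p * y ^ 2, by ring⟩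
      obtain ⟨u', hu'⟩ := hpu
      have hu'2 : u ^ 2 = (p * u') ^ 2 := by rw [← hu', sq_abs]
      have hu'0 : 0 < u' := by
        rw [hu'] at huabs
        have hpp : (0 : ℤ) < p := by exact_mod_cast (Fact.out : p.Prime).pos
        exact (mul_pos_iff_of_pos_left hpp).mp huabs
      have e3 : PythagoreanTriple x' y u' := by
        unfold PythagoreanTriple
        apply mul_left_cancel₀ (pow_ne_zero 2 hp0)
        rw [hu'2, hx'] at e1
        linear_combination e1
      have hcop : Int.gcd x' y = 1 := by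
        rw [← Int.isCoprime_iff_gcd_eq_one]
        rw [hx'] at hxy
        exact hxy.of_mul_left_right
      have hx'odd : x' % 2 = 1 := by
        rcases Int.even_or_odd' x' with ⟨k, h | h⟩
        · exfalso
          rw [hx', h] at hxodd
          have : (p : ℤ) * (2 * k) = 2 * (p * k) := by ring
          omega
        · omega
      obtain ⟨m, n, f1, f2, f3, f4, -, -⟩ := e3.coprime_classification' hcop hx'odd hu'0
      have hm0 : m ≠ 0 := by
        rintro rfl
        apply hy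
        rw [f2]
        ring
      have hn0 : n ≠ 0 := by
        rintro rfl
        apply hy
        rw [f2]
        ring
      have hpm : ¬ (p : ℤ) ∣ m := fun h => hpy (by
        rw [f2]
        exact dvd_mul_of_dvd_left (dvd_mul_of_dvd_right h 2) n)
      have hpn : ¬ (p : ℤ) ∣ n := fun h => hpy (by
        rw [f2]
        exact dvd_mul_of_dvd_right h _)
      have hmn : IsCoprime n m := (Int.isCoprime_iff_gcd_eq_one.mpr f4).symm
      have hcop2 : IsCoprime n ((p : ℤ) * m) := by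
        refine IsCoprime.mul_right ?_ hmn
        exact ((hP.coprime_iff_not_dvd).mpr hpn).symm
      obtain ⟨x₁, y₁, u₁, v₁, hs₁, hle⟩ := step h8 hl (a := n) (b := (p : ℤ) * m)
        (V := (p : ℤ) * v) (c := m) hn0 (mul_ne_zero hp0 hm0) hcop2
        (by
          rw [mul_pow, ← e2, hu'2, f3, f2]
          ring) (Or.inr rfl)
      refine IH x₁ y₁ u₁ v₁ hs₁ ?_
      have h1 := one_le_sq hm0
      have h2 := one_le_sq hn0
      have h3 : y ^ 2 = 4 * (m ^ 2 * n ^ 2) := by
        rw [f2]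
        ring
      rw [h3]
      have h4 : m ^ 2 ≤ m ^ 2 * n ^ 2 := by nlinarith
      have h5 : n ^ 2 ≤ m ^ 2 * n ^ 2 := by nlinarith
      rcases hle with h | h <;> linarith
    · -- first case
      have e3 : PythagoreanTriple x ((p : ℤ) * y) |u| := by
        unfold PythagoreanTriple
        have h1 : |u| * |u| = u ^ 2 := by rw [← sq, sq_abs]
        rw [h1, ← e1]
        ring
      have hcop : Int.gcd x ((p : ℤ) * y) = 1 := by
        rw [← Int.isCoprime_iff_gcd_eq_one]
        exact IsCoprime.mul_right ((hP.coprime_iff_not_dvd).mpr hpx).symm hxy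
      obtain ⟨m, n, f1, f2, f3, f4, -, -⟩ := e3.coprime_classification' hcop hxodd huabs
      have hu2 : u ^ 2 = (m ^ 2 + n ^ 2) ^ 2 := by rw [← f3, sq_abs]
      have hmn : IsCoprime m n := Int.isCoprime_iff_gcd_eq_one.mpr f4
      have hp2' : ¬ (p : ℤ) ∣ 2 := by
        intro h1
        have h2 : p ∣ 2 := by exact_mod_cast h1
        have := Nat.le_of_dvd (by norm_num) h2
        have := (Fact.out : p.Prime).two_le
        omega
      -- the general argument
      have fin : ∀ a b : ℤ, y = 2 * a * b → u ^ 2 = ((p : ℤ) ^ 2 * a ^ 2 + b ^ 2) ^ 2 →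
          IsCoprime ((p : ℤ) * a) b → False := by
        intro a b g1 g2 g3
        have ha0 : a ≠ 0 := by
          rintro rfl
          apply hy
          rw [g1]
          ring
        have hb0 : b ≠ 0 := by
          rintro rfl
          apply hy
          rw [g1]
          ring
        have hpb : ¬ (p : ℤ) ∣ b := fun h => hP.not_isUnit
          ((g3.of_mul_left_left).isUnit_of_dvd' dvd_rfl h)
        obtain ⟨x₁, y₁, u₁, v₁, hs₁, hle⟩ := step h8 hl (a := a) (b := b) (V := v) (c := b) ha0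
          hb0 g3.of_mul_left_right (by
            rw [← e2, g2, g1]
            ring) (Or.inl ⟨rfl, hpb⟩)
        refine IH x₁ y₁ u₁ v₁ hs₁ ?_
        have h1 := one_le_sq ha0
        have h2 := one_le_sq hb0
        have h3 : y ^ 2 = 4 * (a ^ 2 * b ^ 2) := by
          rw [g1]
          ring
        rw [h3]
        have h4 : a ^ 2 ≤ a ^ 2 * b ^ 2 := by nlinarith
        have h5 : b ^ 2 ≤ a ^ 2 * b ^ 2 := by nlinarith
        rcases hle with h | h <;> linarith
      have hdvd : (p : ℤ) ∣ 2 * m * n := ⟨y, f2.symm⟩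
      rcases hP.dvd_or_dvd hdvd with h1 | ⟨a, h1⟩
      · rcases hP.dvd_or_dvd h1 with h2 | ⟨a, h2⟩
        · exact hp2' h2
        · refine fin a n ?_ ?_ ?_
          · apply mul_left_cancel₀ hp0
            rw [f2, h2]
            ring
          · rw [hu2, h2]
            ring
          · rw [← h2]
            exact hmn
      · refine fin a m ?_ ?_ ?_
        · apply mul_left_cancel₀ hp0
          rw [f2, h1]
          ring
        · rw [hu2, h1]
          ring
        · rw [← h1]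
          exact hmn.symm

/-- `x² + p² y²` and `x² + (p² + 1) y²` are never both squares -/
theorem no_sol {p l : ℕ} (hp : p.Prime) (hlp : l.Prime) (h8 : p % 8 = 3 ∨ p % 8 = 5)
    (hl : p ^ 2 + 1 = 2 * l) {x y u v : ℕ} (hx : 0 < x) (hy : 0 < y)
    (h1 : x ^ 2 + p ^ 2 * y ^ 2 = u ^ 2) (h2 : x ^ 2 + (p ^ 2 + 1) * y ^ 2 = v ^ 2) : False := by
  have := Fact.mk hp
  have := Fact.mk hlp
  have e1 : (x : ℤ) ^ 2 + (p : ℤ) ^ 2 * (y : ℤ) ^ 2 = (u : ℤ) ^ 2 := by exact_mod_cast h1
  have e2 : (x : ℤ) ^ 2 + ((p : ℤ) ^ 2 + 1) * (y : ℤ) ^ 2 = (v : ℤ) ^ 2 := by exact_mod_cast h2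
  refine no_sol_aux h8 hl (y : ℤ).natAbs x y u v rfl ⟨?_, ?_, e1, ?_⟩
  · exact_mod_cast hx.ne'
  · exact_mod_cast hy.ne'
  · linear_combination e2 - e1

end Pool.Agent.CUB
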